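import Mathlib
import Pool.Agent.Lib.MP_b525bf_ag.Descent

/-!
Descent of formal smoothness to the coinvariants of a coaction of the group scheme `P(s) = 0`,
`P` a monic additive polynomial.
-/

set_option autoImplicit false

namespace Pool.Agent.MP_b525bf_ag.Comod

open Polynomial AdjoinRoot

/-! ### monogenic extensions -/

/-- If the powers `y^i`, `i < q`, form a basis of `R` over the subalgebra `B`, then formal
smoothness descends from `R` to `B`. -/
theorem formallySmooth_of_powers {k R : Type} [Field k] [CommRing R] [Nontrivial R] [Algebra k R]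
    (B : Subalgebra k R) (q : ℕ) (hq : 0 < q) (y : R)
    (hrep : ∀ b : R, ∃ a : Fin q → B, ∑ i, (a i : R) * y ^ (i : ℕ) = b)
    (huniq : ∀ a : Fin q → B, ∑ i, (a i : R) * y ^ (i : ℕ) = 0 → ∀ i, a i = 0)
    [Algebra.FormallySmooth k R] : Algebra.FormallySmooth k B := by
  obtain ⟨a, ha⟩ := hrep (y ^ q)
  set Q : B[X] := -∑ i : Fin q, C (a i) * X ^ (i : ℕ) with hQ
  have hQdeg : Q.degree < q := by
    rw [hQ, degree_neg]; exact degree_sum_fin_lt _
  set F : B[X] := X ^ q + Q with hF
  have hFm : F.Monic := monic_X_pow_add hQdeg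
  have hnt : Nontrivial B := inferInstance
  have hFdeg : F.natDegree = q := by
    have h1 : F.degree = q := by
      rw [hF, degree_add_eq_left_of_degree_lt]
      · exact degree_X_pow q
      · rw [degree_X_pow]; exact hQdeg
    exact natDegree_eq_of_degree_eq_some h1
  have hroot : F.eval₂ (B.val : B →+* R) y = 0 := by
    rw [hF, eval₂_add, eval₂_pow, eval₂_X, hQ, eval₂_neg, eval₂_finsetSum]
    have : ∑ i : Fin q, eval₂ (B.val : B →+* R) y (C (a i) * X ^ (i : ℕ)) = y ^ q := by
      rw [← ha]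
      refine Finset.sum_congr rfl fun i _ => ?_
      rw [eval₂_mul, eval₂_C, eval₂_pow, eval₂_X]
      rfl
    rw [this]
    ring
  let Φ : AdjoinRoot F →ₐ[k] R := AdjoinRoot.liftAlgHom F B.val y hroot
  have hΦmk : ∀ P, Φ (AdjoinRoot.mk F P) = P.eval₂ (B.val : B →+* R) y :=
    fun P => AdjoinRoot.liftAlgHom_mk F B.val y hroot P
  have hsurj : Function.Surjective Φ := by
    intro b
    obtain ⟨c, hc⟩ := hrep b
    refine ⟨AdjoinRoot.mk F (∑ i : Fin q, C (c i) * X ^ (i : ℕ)), ?_⟩
    rw [hΦmk, eval₂_finsetSum, ← hc]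
    refine Finset.sum_congr rfl fun i _ => ?_
    rw [eval₂_mul, eval₂_C, eval₂_pow, eval₂_X]
    rfl
  have hinj : Function.Injective Φ := by
    rw [injective_iff_map_eq_zero]
    intro x hx
    obtain ⟨P, hP⟩ : ∃ P, P = AdjoinRoot.modByMonicHom hFm x := ⟨_, rfl⟩
    have hx2 : AdjoinRoot.mk F P = x := by rw [hP]; exact AdjoinRoot.mk_leftInverse hFm x
    have hPdeg : P.natDegree < q := by
      obtain ⟨Q', hQ'⟩ := AdjoinRoot.mk_surjective x
      rw [hP, ← hQ', AdjoinRoot.modByMonicHom_mk, ← hFdeg]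
      refine natDegree_modByMonic_lt _ hFm ?_
      intro h1
      rw [h1, natDegree_one] at hFdeg
      omega
    rw [← hx2, hΦmk, eval₂_eq_sum_range' _ hPdeg] at hx
    rw [← Fin.sum_univ_eq_sum_range
      (fun i => (B.val : B →+* R) (P.coeff i) * y ^ i) q] at hx
    have h0 := huniq (fun i => P.coeff i) hx
    have hP0 : P = 0 := by
      ext n
      by_cases hn : n < q
      · have := h0 ⟨n, hn⟩
        simp only at this
        rw [this]; simp
      · rw [coeff_eq_zero_of_natDegree_lt (by omega)]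
        simp
    rw [← hx2, hP0, map_zero]
  have : Algebra.FormallySmooth k (AdjoinRoot F) :=
    Algebra.FormallySmooth.of_equiv (AlgEquiv.ofBijective Φ ⟨hinj, hsurj⟩).symm
  exact formallySmooth_of_adjoinRoot F hFm (by rw [hFdeg]; exact hq)

variable {k R : Type} [Field k] [CommRing R] [Algebra k R]

/-- additive polynomials, functorially -/
def Additive (P : R[X]) : Prop :=
  ∀ (A : Type) [CommRing A] (f : R →+* A) (x y : A), eval₂ f (x + y) P = eval₂ f x P + eval₂ f y P

/-- the second base change -/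
noncomputable abbrev P1 (P : R[X]) : (AdjoinRoot P)[X] := P.map (of P)

/-- A coaction of `{P = 0}` on `R`: a ring map `μ : R → R[s]/(P)` fixing the coefficients of `P`,
counital and coassociative. -/
structure Coaction (k : Type) {R : Type} [Field k] [CommRing R] [Algebra k R] (P : R[X]) where
  μ : R →ₐ[k] AdjoinRoot P
  root_zero : eval₂ (RingHom.id R) 0 P = 0
  root_μ : eval₂ ((of (P1 P)).comp (μ : R →+* AdjoinRoot P)) (root (P1 P)) P = 0
  root_add : eval₂ ((of (P1 P)).comp (of P)) (root (P1 P) + of (P1 P) (root P)) P = 0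
  counit : ∀ r, lift (RingHom.id R) 0 root_zero (μ r) = r
  coassoc : ∀ r, lift ((of (P1 P)).comp (μ : R →+* AdjoinRoot P)) (root (P1 P)) root_μ (μ r)
    = lift ((of (P1 P)).comp (of P)) (root (P1 P) + of (P1 P) (root P)) root_add (μ r)

/-! ### the shape of additive polynomials -/

/-- linear combinations of `X^(p^e)` are additive in characteristic `p` -/
lemma additive_sum (p : ℕ) [Fact p.Prime] [CharP R p] (N : ℕ) (a : ℕ → R) :
    Additive (∑ e ∈ Finset.range N, C (a e) * X ^ (p ^ e)) := by
  intro A _ f x y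
  rcases subsingleton_or_nontrivial A with h | h
  · exact Subsingleton.elim _ _
  have hp : (p : A) = 0 := by
    have : f (p : R) = 0 := by rw [CharP.cast_eq_zero, map_zero]
    rwa [map_natCast] at this
  have : CharP A p := (CharP.charP_iff_prime_eq_zero (Fact.out)).2 hp
  rw [eval₂_finsetSum, eval₂_finsetSum, eval₂_finsetSum, ← Finset.sum_add_distrib]
  refine Finset.sum_congr rfl fun e _ => ?_
  rw [eval₂_mul, eval₂_mul, eval₂_mul, eval₂_C, eval₂_pow, eval₂_pow, eval₂_pow, eval₂_X, eval₂_X,
    eval₂_X, eval₂_C, eval₂_C, add_pow_char_pow]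
  ring

lemma Additive.zero {P : R[X]} (h : Additive P) (A : Type) [CommRing A] (f : R →+* A) :
    eval₂ f 0 P = 0 := by
  have := h A f 0 0
  rw [add_zero] at this
  exact (left_eq_add.mp this)

lemma Additive.neg {P : R[X]} (h : Additive P) (A : Type) [CommRing A] (f : R →+* A) (x : A) :
    eval₂ f (-x) P = -eval₂ f x P := by
  have h1 := h A f x (-x)
  rw [add_neg_cancel, h.zero] at h1
  rw [eq_neg_iff_add_eq_zero, add_comm]
  exact h1.symm

lemma Additive.root_add {P : R[X]} (h : Additive P) :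
    eval₂ ((of (P1 P)).comp (of P)) (root (P1 P) + of (P1 P) (root P)) P = 0 := by
  rw [h, ← eval₂_map, eval₂_root, zero_add, ← hom_eval₂, eval₂_root, map_zero]

/-! ### expansions in powers of the root -/

section expand

variable {P : R[X]} (hP : P.Monic)

lemma eq_sum_root [Nontrivial R] (x : AdjoinRoot P) :
    x = ∑ m : Fin P.natDegree, of P ((modByMonicHom hP x).coeff m) * root P ^ (m : ℕ) := by
  conv_lhs => rw [← mk_leftInverse hP x]
  have hdeg : (modByMonicHom hP x).degree < P.degree := Descent.degree_modByMonicHom_lt P hP x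
  have hn : modByMonicHom hP x = ∑ m ∈ Finset.range P.natDegree,
      C ((modByMonicHom hP x).coeff m) * X ^ m := by
    rcases eq_or_ne (modByMonicHom hP x) 0 with h0 | h0
    · rw [h0]; simp
    · exact as_sum_range_C_mul_X_pow' _ ((natDegree_lt_natDegree_iff h0).2 hdeg)
  have h2 : mk P (modByMonicHom hP x)
      = ∑ m ∈ Finset.range P.natDegree, of P ((modByMonicHom hP x).coeff m) * root P ^ m := by
    conv_lhs => rw [hn]
    rw [map_sum]
    refine Finset.sum_congr rfl fun m _ => ?_
    rw [map_mul, map_pow, mk_X, mk_C]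
  rw [h2, Finset.sum_range]

lemma coeff_sum_root [Nontrivial R] (a : Fin P.natDegree → R) (j : Fin P.natDegree) :
    (modByMonicHom hP (∑ m : Fin P.natDegree, of P (a m) * root P ^ (m : ℕ))).coeff j = a j := by
  have h1 : (∑ m : Fin P.natDegree, of P (a m) * root P ^ (m : ℕ))
      = mk P (∑ m : Fin P.natDegree, C (a m) * X ^ (m : ℕ)) := by
    rw [map_sum]
    refine Finset.sum_congr rfl fun m _ => ?_
    rw [map_mul, map_pow, mk_X, mk_C]
  rw [h1, modByMonicHom_mk, (modByMonic_eq_self_iff hP).2]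
  · rw [finsetSum_coeff, Finset.sum_eq_single j]
    · simp
    · intro m _ hm
      rw [coeff_C_mul, coeff_X_pow, if_neg (fun h => hm (Fin.ext h.symm)), mul_zero]
    · intro h; exact absurd (Finset.mem_univ _) h
  · refine lt_of_lt_of_le (degree_sum_fin_lt a) ?_
    rw [degree_eq_natDegree hP.ne_zero]

include hP in
lemma sum_root_eq_zero [Nontrivial R] {a : Fin P.natDegree → R}
    (h : ∑ m : Fin P.natDegree, of P (a m) * root P ^ (m : ℕ) = 0) : ∀ m, a m = 0 := by
  intro j
  have := coeff_sum_root hP a j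
  rw [h, map_zero, coeff_zero] at this
  exact this.symm

end expand

namespace Coaction

variable {P : R[X]} (c : Coaction k P)

/-- the coinvariants -/
noncomputable def coinv : Subalgebra k R where
  carrier := {r | c.μ r = of P r}
  mul_mem' := fun {a b} ha hb => by
    change c.μ (a * b) = of P (a * b)
    rw [map_mul, map_mul, ha, hb]
  add_mem' := fun {a b} ha hb => by
    change c.μ (a + b) = of P (a + b)
    rw [map_add, map_add, ha, hb]
  algebraMap_mem' := fun r => by
    change c.μ (algebraMap k R r) = of P (algebraMap k R r)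
    rw [AlgHom.commutes]
    rfl

lemma mem_coinv {r : R} : r ∈ c.coinv ↔ c.μ r = of P r := Iff.rfl

/-- the components of the coaction -/
noncomputable def D (hP : P.Monic) (m : ℕ) (r : R) : R := (modByMonicHom hP (c.μ r)).coeff m

/-- the matrix `D_m(y^i)` -/
noncomputable def Mat (hP : P.Monic) (y : R) : Matrix (Fin P.natDegree) (Fin P.natDegree) R :=
  Matrix.of fun m i => c.D hP m (y ^ (i : ℕ))

variable (hP : P.Monic)

include hP in
lemma μ_eq [Nontrivial R] (r : R) :
    c.μ r = ∑ m : Fin P.natDegree, of P (c.D hP m r) * root P ^ (m : ℕ) :=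
  eq_sum_root hP (c.μ r)

include hP in
/-- powers of the translated root are independent -/
lemma sum_trans_eq_zero [Nontrivial (AdjoinRoot P)] (hadd : Additive P)
    {b : Fin P.natDegree → AdjoinRoot P}
    (h : ∑ m : Fin P.natDegree, of (P1 P) (b m) * (root (P1 P) + of (P1 P) (root P)) ^ (m : ℕ) = 0) :
    ∀ m, b m = 0 := by
  have hP1 : (P1 P).Monic := hP.map _
  have hdeg : (P1 P).natDegree = P.natDegree := hP.natDegree_map _
  have hz : eval₂ (of (P1 P)) (root (P1 P) + of (P1 P) (root P)) (P1 P) = 0 := by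
    rw [P1, eval₂_map]; exact hadd.root_add
  have hz' : eval₂ (of (P1 P)) (root (P1 P) + -of (P1 P) (root P)) (P1 P) = 0 := by
    rw [P1, eval₂_map, hadd, hadd.neg, ← eval₂_map, eval₂_root, zero_add, ← hom_eval₂, eval₂_root,
      map_zero, neg_zero]
  let θ : AdjoinRoot (P1 P) →+* AdjoinRoot (P1 P) := lift (of (P1 P)) _ hz
  let θ' : AdjoinRoot (P1 P) →+* AdjoinRoot (P1 P) := lift (of (P1 P)) _ hz'
  have h1 : θ' (∑ m : Fin P.natDegree, of (P1 P) (b m)
      * (root (P1 P) + of (P1 P) (root P)) ^ (m : ℕ))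
      = ∑ m : Fin P.natDegree, of (P1 P) (b m) * root (P1 P) ^ (m : ℕ) := by
    rw [map_sum]
    refine Finset.sum_congr rfl fun m _ => ?_
    rw [map_mul, map_pow, map_add, lift_of, lift_root, lift_of, neg_add_cancel_right]
  rw [h, map_zero] at h1
  -- reindex
  have h2 : ∑ m : Fin (P1 P).natDegree, of (P1 P) (b (Fin.cast hdeg m)) * root (P1 P) ^ (m : ℕ) = 0 := by
    rw [h1]
    exact Fintype.sum_equiv (finCongr hdeg) _ _ fun m => rfl
  have h3 := sum_root_eq_zero hP1 h2
  intro m
  have := h3 (Fin.cast hdeg.symm m)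
  simpa using this

include hP in
/-- the coefficients of an expansion in `μ(y^i)` are coinvariant -/
lemma coinv_of_sum [Nontrivial R] [Nontrivial (AdjoinRoot P)] (hadd : Additive P) (y : R)
    (hy : IsUnit (c.Mat hP y).det) (a : Fin P.natDegree → R) (b : R)
    (h : ∑ i, of P (a i) * c.μ (y ^ (i : ℕ)) = c.μ b) : ∀ i, a i ∈ c.coinv := by
  set α : AdjoinRoot P →+* AdjoinRoot (P1 P) :=
    lift ((of (P1 P)).comp (c.μ : R →+* AdjoinRoot P)) (root (P1 P)) c.root_μ with hα
  set Δ : AdjoinRoot P →+* AdjoinRoot (P1 P) :=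
    lift ((of (P1 P)).comp (of P)) (root (P1 P) + of (P1 P) (root P)) c.root_add with hΔ
  have hco : ∀ r, α (c.μ r) = Δ (c.μ r) := c.coassoc
  have hαof : ∀ r, α (of P r) = of (P1 P) (c.μ r) := fun r => lift_of _
  have hΔof : ∀ r, Δ (of P r) = of (P1 P) (of P r) := fun r => lift_of _
  have hΔroot : Δ (root P) = root (P1 P) + of (P1 P) (root P) := lift_root _
  have e1 : ∑ i, of (P1 P) (c.μ (a i)) * Δ (c.μ (y ^ (i : ℕ)))
      = ∑ i, of (P1 P) (of P (a i)) * Δ (c.μ (y ^ (i : ℕ))) := by
    have h1 := congrArg α h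
    have h2 := congrArg Δ h
    rw [hco b, ← h2, map_sum, map_sum] at h1
    calc ∑ i, of (P1 P) (c.μ (a i)) * Δ (c.μ (y ^ (i : ℕ)))
        = ∑ i, α (of P (a i) * c.μ (y ^ (i : ℕ))) := by
          refine Finset.sum_congr rfl fun i _ => ?_
          rw [map_mul, hαof, hco]
      _ = ∑ i, Δ (of P (a i) * c.μ (y ^ (i : ℕ))) := h1
      _ = _ := by
          refine Finset.sum_congr rfl fun i _ => ?_
          rw [map_mul, hΔof]
  set δ : Fin P.natDegree → AdjoinRoot P := fun i => c.μ (a i) - of P (a i) with hδ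
  have e2 : ∑ m : Fin P.natDegree, of (P1 P) (∑ i, δ i * of P (c.Mat hP y m i))
      * (root (P1 P) + of (P1 P) (root P)) ^ (m : ℕ) = 0 := by
    have h3 : ∑ m : Fin P.natDegree, of (P1 P) (∑ i, δ i * of P (c.Mat hP y m i))
        * (root (P1 P) + of (P1 P) (root P)) ^ (m : ℕ)
        = ∑ i, of (P1 P) (δ i) * Δ (c.μ (y ^ (i : ℕ))) := by
      simp_rw [map_sum, Finset.sum_mul]
      rw [Finset.sum_comm]
      refine Finset.sum_congr rfl fun i _ => ?_
      rw [c.μ_eq hP (y ^ (i : ℕ)), map_sum, Finset.mul_sum]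
      refine Finset.sum_congr rfl fun m _ => ?_
      rw [map_mul Δ, map_pow, hΔof, hΔroot, map_mul (of (P1 P)), mul_assoc]
      rfl
    rw [h3]
    simp_rw [hδ, map_sub, sub_mul]
    rw [Finset.sum_sub_distrib, e1, sub_self]
  have e3 := sum_trans_eq_zero hP hadd e2
  -- invert the matrix
  set A : Matrix (Fin P.natDegree) (Fin P.natDegree) (AdjoinRoot P) := (c.Mat hP y).map (of P) with hA
  have hAdet : IsUnit A.det := by
    have : A.det = of P (c.Mat hP y).det := by
      rw [hA, RingHom.map_det]; rfl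
    rw [this]
    exact hy.map _
  have e4 : A.mulVec δ = 0 := by
    funext m
    have := e3 m
    rw [Matrix.mulVec, dotProduct]
    calc ∑ i, A m i * δ i = ∑ i, δ i * of P (c.Mat hP y m i) := by
          refine Finset.sum_congr rfl fun i _ => ?_
          rw [mul_comm]; rfl
      _ = 0 := this
  have e5 : δ = 0 := by
    have h5 : A⁻¹.mulVec (A.mulVec δ) = δ := by
      rw [Matrix.mulVec_mulVec, Matrix.nonsing_inv_mul A hAdet, Matrix.one_mulVec]
    rw [e4, Matrix.mulVec_zero] at h5
    exact h5.symm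
  intro i
  have := congrFun e5 i
  rw [mem_coinv]
  exact sub_eq_zero.1 this

include hP in
lemma exists_rep [Nontrivial R] [Nontrivial (AdjoinRoot P)] (hadd : Additive P) (y : R)
    (hy : IsUnit (c.Mat hP y).det) (b : R) :
    ∃ a : Fin P.natDegree → c.coinv, ∑ i, (a i : R) * y ^ (i : ℕ) = b := by
  set v : Fin P.natDegree → R := fun m => c.D hP m b with hv
  set a : Fin P.natDegree → R := (c.Mat hP y)⁻¹.mulVec v with ha
  have h1 : (c.Mat hP y).mulVec a = v := by
    rw [ha, Matrix.mulVec_mulVec, Matrix.mul_nonsing_inv _ hy, Matrix.one_mulVec]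
  have h2 : ∑ i, of P (a i) * c.μ (y ^ (i : ℕ)) = c.μ b := by
    rw [c.μ_eq hP b]
    calc ∑ i, of P (a i) * c.μ (y ^ (i : ℕ))
        = ∑ i, ∑ m : Fin P.natDegree, of P (c.Mat hP y m i * a i) * root P ^ (m : ℕ) := by
          refine Finset.sum_congr rfl fun i _ => ?_
          rw [c.μ_eq hP (y ^ (i : ℕ)), Finset.mul_sum]
          refine Finset.sum_congr rfl fun m _ => ?_
          rw [← mul_assoc, ← map_mul, mul_comm (a i)]
          rfl
      _ = ∑ m : Fin P.natDegree, of P ((c.Mat hP y).mulVec a m) * root P ^ (m : ℕ) := by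
          rw [Finset.sum_comm]
          refine Finset.sum_congr rfl fun m _ => ?_
          rw [← Finset.sum_mul, ← map_sum]
          rfl
      _ = _ := by rw [h1]
  have h3 := c.coinv_of_sum hP hadd y hy a b h2
  refine ⟨fun i => ⟨a i, h3 i⟩, ?_⟩
  have h4 := congrArg (lift (RingHom.id R) 0 c.root_zero) h2
  rw [c.counit, map_sum] at h4
  rw [← h4]
  refine Finset.sum_congr rfl fun i _ => ?_
  rw [map_mul, c.counit, lift_of]
  rfl

include hP in
lemma rep_unique [Nontrivial R] (y : R) (hy : IsUnit (c.Mat hP y).det)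
    (a : Fin P.natDegree → c.coinv) (h : ∑ i, (a i : R) * y ^ (i : ℕ) = 0) : ∀ i, a i = 0 := by
  have h1 := congrArg c.μ h
  rw [map_sum, map_zero] at h1
  have h2 : ∑ m : Fin P.natDegree, of P ((c.Mat hP y).mulVec (fun i => (a i : R)) m) * root P ^ (m : ℕ)
      = 0 := by
    rw [← h1]
    calc ∑ m : Fin P.natDegree, of P ((c.Mat hP y).mulVec (fun i => (a i : R)) m) * root P ^ (m : ℕ)
        = ∑ m : Fin P.natDegree, ∑ i, of P (c.Mat hP y m i * a i) * root P ^ (m : ℕ) := by
          refine Finset.sum_congr rfl fun m _ => ?_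
          rw [← Finset.sum_mul, ← map_sum]
          rfl
      _ = ∑ i, c.μ ((a i : R) * y ^ (i : ℕ)) := by
          rw [Finset.sum_comm]
          refine Finset.sum_congr rfl fun i _ => ?_
          have hi : c.μ (a i : R) = of P (a i : R) := (a i).2
          rw [map_mul, hi, c.μ_eq hP (y ^ (i : ℕ)), Finset.mul_sum]
          refine Finset.sum_congr rfl fun m _ => ?_
          rw [← mul_assoc, ← map_mul, mul_comm (a i : R)]
          rfl
  have h3 := sum_root_eq_zero hP h2
  have h4 : (c.Mat hP y).mulVec (fun i => (a i : R)) = 0 := funext h3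
  have h5 : (fun i => (a i : R)) = 0 := by
    have h6 : (c.Mat hP y)⁻¹.mulVec ((c.Mat hP y).mulVec (fun i => (a i : R))) = fun i => (a i : R) := by
      rw [Matrix.mulVec_mulVec, Matrix.nonsing_inv_mul _ hy, Matrix.one_mulVec]
    rw [h4, Matrix.mulVec_zero] at h6
    exact h6.symm
  intro i
  exact Subtype.ext (congrFun h5 i)

end Coaction

lemma nontrivial_of_deg {P : R[X]} (hdeg : 0 < P.natDegree) : Nontrivial R := by
  by_contra h
  rw [not_nontrivial_iff_subsingleton] at h
  rw [natDegree_of_subsingleton] at hdeg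
  exact lt_irrefl _ hdeg

lemma nontrivial_adjoinRoot {P : R[X]} (hP : P.Monic) (hdeg : 0 < P.natDegree) :
    Nontrivial (AdjoinRoot P) := by
  have : Nontrivial R := nontrivial_of_deg hdeg
  apply Ideal.Quotient.nontrivial_iff.mpr
  intro h
  rw [Ideal.span_singleton_eq_top] at h
  have := hP.eq_one_of_isUnit h
  rw [this, natDegree_one] at hdeg
  exact lt_irrefl _ hdeg

/-- If the matrix `D_m(y^i)` is invertible, then `R` is free over the coinvariants with basis the
powers of `y`, and formal smoothness descends. -/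
theorem formallySmooth_coinv {P : R[X]} (hP : P.Monic) (hdeg : 0 < P.natDegree) (hadd : Additive P)
    (c : Coaction k P) (y : R) (hy : IsUnit (c.Mat hP y).det)
    [Algebra.FormallySmooth k R] : Algebra.FormallySmooth k c.coinv := by
  have h1 : Nontrivial R := nontrivial_of_deg hdeg
  have h2 : Nontrivial (AdjoinRoot P) := nontrivial_adjoinRoot hP hdeg
  exact formallySmooth_of_powers c.coinv P.natDegree hdeg y (c.exists_rep hP hadd y hy)
    (c.rep_unique hP y hy)

end Pool.Agent.MP_b525bf_ag.Comod
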