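import Mathlib

/-!
Hopf-Galois descent for the finite group scheme `{P = 0}`, `P` a monic additive polynomial:
coinvariance of expansion coefficients, and of the characteristic polynomial of `μ r`.
-/

set_option autoImplicit false

namespace Pool.Agent.MP_b525bf_ag.Gam

open Polynomial AdjoinRoot

variable {R : Type} [CommRing R]

/-- m-th coordinate of an element of R[X]/(P) -/
noncomputable def cf {P : R[X]} (hP : P.Monic) (m : ℕ) : AdjoinRoot P →ₗ[R] R :=
  (lcoeff R m) ∘ₗ AdjoinRoot.modByMonicHom hP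

/-- P over AdjoinRoot P -/
noncomputable abbrev P2 (P : R[X]) : (AdjoinRoot P)[X] := P.map (AdjoinRoot.of P)

/-- coaction of `{P = 0}` on `R` -/
structure Coact (P : R[X]) (μ : R →+* AdjoinRoot P) : Prop where
  monic : P.Monic
  add : ∀ {C : Type} [CommRing C] (φ : R →+* C) (a b : C),
    P.eval₂ φ (a + b) = P.eval₂ φ a + P.eval₂ φ b
  fixed : ∀ i, μ (P.coeff i) = AdjoinRoot.of P (P.coeff i)
  counit : ∀ r, cf monic 0 (μ r) = r
  coassoc : ∀ r, ∑ i ∈ Finset.range P.natDegree,
      AdjoinRoot.of (P2 P) (μ (cf monic i (μ r))) * AdjoinRoot.root (P2 P) ^ i =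
    ∑ i ∈ Finset.range P.natDegree, AdjoinRoot.of (P2 P) (AdjoinRoot.of P (cf monic i (μ r))) *
      (AdjoinRoot.of (P2 P) (AdjoinRoot.root P) + AdjoinRoot.root (P2 P)) ^ i

/-! ### expansions -/

section expand

variable {P : R[X]} (hP : P.Monic)

lemma subsingleton_adjoinRoot [Subsingleton R] (P : R[X]) : Subsingleton (AdjoinRoot P) := by
  have h : (0 : AdjoinRoot P) = 1 := by
    rw [← map_one (of P), ← map_zero (of P)]
    exact congrArg _ (Subsingleton.elim _ _)
  exact subsingleton_of_zero_eq_one h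

lemma eq_sum_range (x : AdjoinRoot P) :
    x = ∑ m ∈ Finset.range P.natDegree, of P (cf hP m x) * root P ^ m := by
  rcases subsingleton_or_nontrivial R with hs | hn
  · have := subsingleton_adjoinRoot P
    exact Subsingleton.elim _ _
  have hdeg : (modByMonicHom hP x).degree < P.degree := by
    obtain ⟨Q, rfl⟩ := mk_surjective x
    rw [modByMonicHom_mk]
    exact degree_modByMonic_lt _ hP
  have hn : modByMonicHom hP x = ∑ m ∈ Finset.range P.natDegree,
      C ((modByMonicHom hP x).coeff m) * X ^ m := by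
    rcases eq_or_ne (modByMonicHom hP x) 0 with h0 | h0
    · rw [h0]; simp
    · exact as_sum_range_C_mul_X_pow' _ ((natDegree_lt_natDegree_iff h0).2 hdeg)
  conv_lhs => rw [← mk_leftInverse hP x, hn]
  rw [map_sum]
  refine Finset.sum_congr rfl fun m _ => ?_
  rw [map_mul, map_pow, mk_X, mk_C]
  rfl

lemma eq_sum_fin (x : AdjoinRoot P) :
    x = ∑ m : Fin P.natDegree, of P (cf hP m x) * root P ^ (m : ℕ) := by
  conv_lhs => rw [eq_sum_range hP x]
  rw [Finset.sum_range]

lemma cf_sum (a : Fin P.natDegree → R) (j : Fin P.natDegree) :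
    cf hP j (∑ m : Fin P.natDegree, of P (a m) * root P ^ (m : ℕ)) = a j := by
  rcases subsingleton_or_nontrivial R with hs | hn
  · exact Subsingleton.elim _ _
  have h1 : (∑ m : Fin P.natDegree, of P (a m) * root P ^ (m : ℕ))
      = mk P (∑ m : Fin P.natDegree, C (a m) * X ^ (m : ℕ)) := by
    rw [map_sum]
    refine Finset.sum_congr rfl fun m _ => ?_
    rw [map_mul, map_pow, mk_X, mk_C]
  rw [h1]
  change (modByMonicHom hP (mk P _)).coeff j = _
  rw [modByMonicHom_mk, (modByMonic_eq_self_iff hP).2]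
  · rw [finsetSum_coeff, Finset.sum_eq_single j]
    · simp
    · intro m _ hm
      rw [coeff_C_mul, coeff_X_pow, if_neg (fun h => hm (Fin.ext h.symm)), mul_zero]
    · intro h; exact absurd (Finset.mem_univ _) h
  · refine lt_of_lt_of_le (degree_sum_fin_lt a) ?_
    rw [degree_eq_natDegree hP.ne_zero]

include hP in
lemma sum_root_eq_zero {a : Fin P.natDegree → R}
    (h : ∑ m : Fin P.natDegree, of P (a m) * root P ^ (m : ℕ) = 0) : ∀ m, a m = 0 := by
  intro j
  have := cf_sum hP a j
  rw [h, map_zero] at this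
  exact this.symm

end expand

namespace Coact

variable {P : R[X]} {μ : R →+* AdjoinRoot P} (h : Coact P μ)

include h

lemma eval_zero {C : Type} [CommRing C] (φ : R →+* C) : P.eval₂ φ 0 = 0 := by
  have := h.add φ 0 0
  rw [add_zero] at this
  exact left_eq_add.mp this

lemma eval_neg {C : Type} [CommRing C] (φ : R →+* C) (x : C) : P.eval₂ φ (-x) = -P.eval₂ φ x := by
  have h1 := h.add φ x (-x)
  rw [add_neg_cancel, h.eval_zero] at h1
  rw [eq_neg_iff_add_eq_zero, add_comm]
  exact h1.symm

lemma map_μ : P.map μ = P2 P := by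
  ext i
  rw [coeff_map, coeff_map, h.fixed]

lemma root_μ : eval₂ ((of (P2 P)).comp μ) (root (P2 P)) P = 0 := by
  rw [← eval₂_map, h.map_μ, eval₂_root]

lemma root_Δ : eval₂ ((of (P2 P)).comp (of P)) (of (P2 P) (root P) + root (P2 P)) P = 0 := by
  rw [h.add, ← hom_eval₂, eval₂_root, map_zero, zero_add, ← eval₂_map, eval₂_root]

lemma root_ι : eval₂ ((of (P2 P)).comp (of P)) (root (P2 P)) P = 0 := by
  rw [← eval₂_map, eval₂_root]

lemma root_θ : eval₂ (of (P2 P)) (of (P2 P) (root P) + root (P2 P)) (P2 P) = 0 := by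
  rw [P2, eval₂_map]; exact h.root_Δ

lemma root_θ' : eval₂ (of (P2 P)) (-of (P2 P) (root P) + root (P2 P)) (P2 P) = 0 := by
  rw [P2, eval₂_map, h.add, h.eval_neg, ← hom_eval₂, eval₂_root, map_zero, neg_zero, zero_add,
    ← eval₂_map, eval₂_root]

/-- `μ` on coefficients -/
noncomputable def m1 : AdjoinRoot P →+* AdjoinRoot (P2 P) :=
  lift ((of (P2 P)).comp μ) (root (P2 P)) h.root_μ

/-- comultiplication -/
noncomputable def Δ : AdjoinRoot P →+* AdjoinRoot (P2 P) :=
  lift ((of (P2 P)).comp (of P)) (of (P2 P) (root P) + root (P2 P)) h.root_Δ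

/-- base change -/
noncomputable def ι : AdjoinRoot P →+* AdjoinRoot (P2 P) :=
  lift ((of (P2 P)).comp (of P)) (root (P2 P)) h.root_ι

/-- translation -/
noncomputable def θ : AdjoinRoot (P2 P) →+* AdjoinRoot (P2 P) :=
  lift (of (P2 P)) (of (P2 P) (root P) + root (P2 P)) h.root_θ

/-- inverse translation -/
noncomputable def θ' : AdjoinRoot (P2 P) →+* AdjoinRoot (P2 P) :=
  lift (of (P2 P)) (-of (P2 P) (root P) + root (P2 P)) h.root_θ'

lemma m1_of (r : R) : h.m1 (of P r) = of (P2 P) (μ r) := lift_of _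
lemma m1_root : h.m1 (root P) = root (P2 P) := lift_root _
lemma Δ_of (r : R) : h.Δ (of P r) = of (P2 P) (of P r) := lift_of _
lemma Δ_root : h.Δ (root P) = of (P2 P) (root P) + root (P2 P) := lift_root _
lemma ι_of (r : R) : h.ι (of P r) = of (P2 P) (of P r) := lift_of _
lemma ι_root : h.ι (root P) = root (P2 P) := lift_root _
lemma θ_of (r : AdjoinRoot P) : h.θ (of (P2 P) r) = of (P2 P) r := lift_of _
lemma θ_root : h.θ (root (P2 P)) = of (P2 P) (root P) + root (P2 P) := lift_root _
lemma θ'_of (r : AdjoinRoot P) : h.θ' (of (P2 P) r) = of (P2 P) r := lift_of _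
lemma θ'_root : h.θ' (root (P2 P)) = -of (P2 P) (root P) + root (P2 P) := lift_root _

lemma ringHom_ext {S : Type} [CommRing S] {f g : AdjoinRoot P →+* S}
    (h1 : ∀ r, f (of P r) = g (of P r)) (h2 : f (root P) = g (root P)) (x : AdjoinRoot P) :
    f x = g x := by
  rw [eq_sum_range h.monic x, map_sum, map_sum]
  refine Finset.sum_congr rfl fun m _ => ?_
  rw [map_mul, map_mul, map_pow, map_pow, h1, h2]

lemma Δ_eq (x : AdjoinRoot P) : h.Δ x = h.θ (h.ι x) := by
  refine h.ringHom_ext (f := h.Δ) (g := h.θ.comp h.ι) (fun r => ?_) ?_ x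
  · rw [RingHom.comp_apply, h.Δ_of, h.ι_of, h.θ_of]
  · rw [RingHom.comp_apply, h.Δ_root, h.ι_root, h.θ_root]

lemma θ'_θ (x : AdjoinRoot (P2 P)) : h.θ' (h.θ x) = x := by
  have hP2 : (P2 P).Monic := h.monic.map _
  conv_rhs => rw [eq_sum_range hP2 x]
  conv_lhs => rw [eq_sum_range hP2 x]
  rw [map_sum, map_sum]
  refine Finset.sum_congr rfl fun m _ => ?_
  rw [map_mul, map_mul, map_pow, map_pow, h.θ_of, h.θ'_of, h.θ_root, map_add, h.θ'_root, h.θ'_of,
    add_neg_cancel_left]

lemma θ_θ' (x : AdjoinRoot (P2 P)) : h.θ (h.θ' x) = x := by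
  have hP2 : (P2 P).Monic := h.monic.map _
  conv_rhs => rw [eq_sum_range hP2 x]
  conv_lhs => rw [eq_sum_range hP2 x]
  rw [map_sum, map_sum]
  refine Finset.sum_congr rfl fun m _ => ?_
  rw [map_mul, map_mul, map_pow, map_pow, h.θ'_of, h.θ_of, h.θ'_root, map_add, h.θ_root, map_neg,
    h.θ_of, neg_add_cancel_left]

/-- coassociativity -/
lemma coassoc' (r : R) : h.m1 (μ r) = h.Δ (μ r) := by
  conv_lhs => rw [eq_sum_range h.monic (μ r)]
  conv_rhs => rw [eq_sum_range h.monic (μ r)]
  rw [map_sum, map_sum]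
  have h1 := h.coassoc r
  calc ∑ x ∈ Finset.range P.natDegree, h.m1 (of P (cf h.monic x (μ r)) * root P ^ x)
      = ∑ i ∈ Finset.range P.natDegree,
        AdjoinRoot.of (P2 P) (μ (cf h.monic i (μ r))) * AdjoinRoot.root (P2 P) ^ i := by
        refine Finset.sum_congr rfl fun m _ => ?_
        rw [map_mul, map_pow, h.m1_of, h.m1_root]
    _ = _ := h1
    _ = _ := by
        refine Finset.sum_congr rfl fun m _ => ?_
        rw [map_mul, map_pow, h.Δ_of, h.Δ_root]

/-- the counit -/
noncomputable def eps : AdjoinRoot P →+* R := lift (RingHom.id R) 0 (h.eval_zero _)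

lemma eps_of (r : R) : h.eps (of P r) = r := lift_of _
lemma eps_root : h.eps (root P) = 0 := lift_root _

/-- a monic polynomial of degree zero gives the zero ring -/
lemma subsingleton_of_deg (hd : P.natDegree = 0) : Subsingleton R := by
  have h1 : P = 1 := h.monic.natDegree_eq_zero.mp hd
  have h2 := h.eval_zero (RingHom.id R)
  rw [h1] at h2
  simp only [eval₂_one] at h2
  exact subsingleton_of_zero_eq_one h2.symm

lemma eps_eq (x : AdjoinRoot P) : h.eps x = cf h.monic 0 x := by
  rcases Nat.eq_zero_or_pos P.natDegree with hd | hd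
  · have := h.subsingleton_of_deg hd
    exact Subsingleton.elim _ _
  conv_lhs => rw [eq_sum_range h.monic x]
  rw [map_sum, Finset.sum_eq_single 0]
  · rw [pow_zero, mul_one, h.eps_of]
  · intro m _ hm
    rw [map_mul, map_pow, h.eps_root, zero_pow hm, mul_zero]
  · intro h0; exact absurd (Finset.mem_range.mpr hd) h0

lemma eps_μ (r : R) : h.eps (μ r) = r := by rw [h.eps_eq, h.counit]

/-- powers of the translated root are independent -/
lemma sum_trans_eq_zero {b : Fin P.natDegree → AdjoinRoot P}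
    (hb : ∑ m : Fin P.natDegree, of (P2 P) (b m)
      * (of (P2 P) (root P) + root (P2 P)) ^ (m : ℕ) = 0) : ∀ m, b m = 0 := by
  rcases subsingleton_or_nontrivial R with hs | hn
  · have := subsingleton_adjoinRoot P
    exact fun m => Subsingleton.elim _ _
  have hP2 : (P2 P).Monic := h.monic.map _
  rcases subsingleton_or_nontrivial (AdjoinRoot P) with hs | hn'
  · exact fun m => Subsingleton.elim _ _
  have hdeg : (P2 P).natDegree = P.natDegree := h.monic.natDegree_map _
  have h1 : h.θ' (∑ m : Fin P.natDegree, of (P2 P) (b m)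
      * (of (P2 P) (root P) + root (P2 P)) ^ (m : ℕ))
      = ∑ m : Fin P.natDegree, of (P2 P) (b m) * root (P2 P) ^ (m : ℕ) := by
    rw [map_sum]
    refine Finset.sum_congr rfl fun m _ => ?_
    rw [map_mul, map_pow, map_add, h.θ'_of, h.θ'_root, h.θ'_of, add_neg_cancel_left]
  rw [hb, map_zero] at h1
  have h2 : ∑ m : Fin (P2 P).natDegree, of (P2 P) (b (Fin.cast hdeg m)) * root (P2 P) ^ (m : ℕ) = 0 := by
    rw [h1]
    exact Fintype.sum_equiv (finCongr hdeg) _ _ fun m => rfl
  have h3 := sum_root_eq_zero hP2 h2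
  intro m
  have := h3 (Fin.cast hdeg.symm m)
  simpa using this

/-- H1 (descent) -/
theorem descent (y : R)
    (hy : IsUnit (Matrix.of fun m i : Fin P.natDegree => cf h.monic m (μ y ^ (i : ℕ))).det) (b : R)
    (a : Fin P.natDegree → R) (ha : ∀ m : Fin P.natDegree,
       ∑ i, a i * cf h.monic m (μ y ^ (i : ℕ)) = cf h.monic m (μ b)) :
    (∀ i, μ (a i) = AdjoinRoot.of P (a i)) ∧ b = ∑ i, a i * y ^ (i : ℕ) := by
  set M : Matrix (Fin P.natDegree) (Fin P.natDegree) R :=
    Matrix.of fun m i : Fin P.natDegree => cf h.monic m (μ y ^ (i : ℕ)) with hM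
  have key : ∑ i, of P (a i) * μ (y ^ (i : ℕ)) = μ b := by
    rw [eq_sum_fin h.monic (μ b)]
    calc ∑ i, of P (a i) * μ (y ^ (i : ℕ))
        = ∑ i, ∑ m : Fin P.natDegree, of P (a i * M m i) * root P ^ (m : ℕ) := by
          refine Finset.sum_congr rfl fun i _ => ?_
          conv_lhs => rw [map_pow, eq_sum_fin h.monic (μ y ^ (i : ℕ)), Finset.mul_sum]
          refine Finset.sum_congr rfl fun m _ => ?_
          rw [← mul_assoc, ← map_mul]
          rfl
      _ = ∑ m : Fin P.natDegree, of P (∑ i, a i * M m i) * root P ^ (m : ℕ) := by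
          rw [Finset.sum_comm]
          refine Finset.sum_congr rfl fun m _ => ?_
          rw [← Finset.sum_mul, ← map_sum]
      _ = _ := by
          refine Finset.sum_congr rfl fun m _ => ?_
          rw [← ha m]
          rfl
  constructor
  · have e1 : ∑ i, of (P2 P) (μ (a i)) * h.Δ (μ (y ^ (i : ℕ)))
        = ∑ i, of (P2 P) (of P (a i)) * h.Δ (μ (y ^ (i : ℕ))) := by
      have h1 := congrArg h.m1 key
      have h2 := congrArg h.Δ key
      rw [h.coassoc' b, ← h2, map_sum, map_sum] at h1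
      calc ∑ i, of (P2 P) (μ (a i)) * h.Δ (μ (y ^ (i : ℕ)))
          = ∑ i, h.m1 (of P (a i) * μ (y ^ (i : ℕ))) := by
            refine Finset.sum_congr rfl fun i _ => ?_
            rw [map_mul h.m1, h.m1_of, h.coassoc']
        _ = ∑ i, h.Δ (of P (a i) * μ (y ^ (i : ℕ))) := h1
        _ = _ := by
            refine Finset.sum_congr rfl fun i _ => ?_
            rw [map_mul h.Δ, h.Δ_of]
    set δ : Fin P.natDegree → AdjoinRoot P := fun i => μ (a i) - of P (a i) with hδ
    have e2 : ∑ m : Fin P.natDegree, of (P2 P) (∑ i, δ i * of P (M m i))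
        * (of (P2 P) (root P) + root (P2 P)) ^ (m : ℕ) = 0 := by
      have h3 : ∑ m : Fin P.natDegree, of (P2 P) (∑ i, δ i * of P (M m i))
          * (of (P2 P) (root P) + root (P2 P)) ^ (m : ℕ)
          = ∑ i, of (P2 P) (δ i) * h.Δ (μ (y ^ (i : ℕ))) := by
        simp_rw [map_sum, Finset.sum_mul]
        rw [Finset.sum_comm]
        refine Finset.sum_congr rfl fun i _ => ?_
        conv_rhs => rw [map_pow μ, eq_sum_fin h.monic (μ y ^ (i : ℕ)), map_sum, Finset.mul_sum]
        refine Finset.sum_congr rfl fun m _ => ?_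
        rw [map_mul h.Δ, map_pow h.Δ, h.Δ_of, h.Δ_root, map_mul (of (P2 P)), mul_assoc]
        rfl
      rw [h3]
      simp_rw [hδ, map_sub, sub_mul]
      rw [Finset.sum_sub_distrib, e1, sub_self]
    have e3 := h.sum_trans_eq_zero e2
    set A : Matrix (Fin P.natDegree) (Fin P.natDegree) (AdjoinRoot P) := M.map (of P) with hA
    have hAdet : IsUnit A.det := by
      have : A.det = of P M.det := by
        rw [hA, RingHom.map_det]; rfl
      rw [this]
      exact hy.map _
    have e4 : A.mulVec δ = 0 := by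
      funext m
      have := e3 m
      rw [Matrix.mulVec, dotProduct]
      calc ∑ i, A m i * δ i = ∑ i, δ i * of P (M m i) := by
            refine Finset.sum_congr rfl fun i _ => ?_
            rw [mul_comm]; rfl
        _ = 0 := this
    have e5 : δ = 0 := by
      have h5 : A⁻¹.mulVec (A.mulVec δ) = δ := by
        rw [Matrix.mulVec_mulVec, Matrix.nonsing_inv_mul A hAdet, Matrix.one_mulVec]
      rw [e4, Matrix.mulVec_zero] at h5
      exact h5.symm
    intro i
    exact sub_eq_zero.1 (congrFun e5 i)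
  · have h4 := congrArg h.eps key
    rw [h.eps_μ, map_sum] at h4
    rw [← h4]
    refine Finset.sum_congr rfl fun i _ => ?_
    rw [map_mul, h.eps_of, h.eps_μ]

/-- matrix of multiplication by μ r -/
noncomputable def mat (r : R) : Matrix (Fin P.natDegree) (Fin P.natDegree) R :=
  Matrix.of fun m j => cf h.monic m (μ r * AdjoinRoot.root P ^ (j : ℕ))

end Coact

/-- the power basis -/
noncomputable def bas {P : R[X]} (hP : P.Monic) : Module.Basis (Fin P.natDegree) R (AdjoinRoot P) :=
  powerBasisAux' hP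

lemma bas_repr {P : R[X]} (hP : P.Monic) (x : AdjoinRoot P) (i : Fin P.natDegree) :
    (bas hP).repr x i = cf hP i x := rfl

lemma bas_apply {P : R[X]} (hP : P.Monic) (i : Fin P.natDegree) : bas hP i = root P ^ (i : ℕ) :=
  (powerBasis' hP).basis_eq_pow i

/-- the matrix of multiplication by `z` in the power basis -/
noncomputable def lmat {P : R[X]} (hP : P.Monic) (z : AdjoinRoot P) :
    Matrix (Fin P.natDegree) (Fin P.natDegree) R :=
  Matrix.of fun m j => cf hP m (z * root P ^ (j : ℕ))

lemma lmul_app {A B : Type} [CommRing A] [CommRing B] [Algebra A B] (x y : B) :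
    Algebra.lmul A B x y = x * y := rfl

lemma lmat_eq {P : R[X]} (hP : P.Monic) (z : AdjoinRoot P) :
    lmat hP z = LinearMap.toMatrix (bas hP) (bas hP) (Algebra.lmul R (AdjoinRoot P) z) := by
  ext m j
  rw [LinearMap.toMatrix_apply, bas_repr, bas_apply]
  rfl

lemma lmat_charpoly {P : R[X]} (hP : P.Monic) (z : AdjoinRoot P) [Module.Finite R (AdjoinRoot P)]
    [Module.Free R (AdjoinRoot P)] :
    (lmat hP z).charpoly = (Algebra.lmul R (AdjoinRoot P) z).charpoly := by
  rw [lmat_eq, LinearMap.charpoly_toMatrix]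

lemma lmat_charpoly_aeval {P : R[X]} (hP : P.Monic) (z : AdjoinRoot P) :
    eval₂ (of P) z (lmat hP z).charpoly = 0 := by
  have h1 := Matrix.aeval_self_charpoly (lmat hP z)
  have h2 : (aeval (Algebra.lmul R (AdjoinRoot P) z)) (lmat hP z).charpoly = 0 := by
    apply (LinearMap.toMatrixAlgEquiv (bas hP)).injective
    rw [map_zero, ← aeval_algHom_apply]
    have : (LinearMap.toMatrixAlgEquiv (bas hP)) (Algebra.lmul R (AdjoinRoot P) z) = lmat hP z := by
      rw [lmat_eq]; rfl
    rw [this]
    exact h1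
  rw [aeval_algHom_apply] at h2
  have h3 := congrArg (fun f : Module.End R (AdjoinRoot P) => f 1) h2
  simp only [LinearMap.zero_apply] at h3
  rw [lmul_app, mul_one] at h3
  exact h3

namespace Coact

variable {P : R[X]} {μ : R →+* AdjoinRoot P} (h : Coact P μ)

lemma mat_eq (r : R) : h.mat r = lmat h.monic (μ r) := rfl

/-- H2: the characteristic polynomial of multiplication by `μ r` vanishes at `r` -/
theorem charpoly_eval (r : R) : (h.mat r).charpoly.eval r = 0 := by
  have h1 := congrArg h.eps (lmat_charpoly_aeval h.monic (μ r))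
  rw [hom_eval₂, h.eps_μ, map_zero] at h1
  have h2 : h.eps.comp (of P) = RingHom.id R := by
    ext x
    exact h.eps_of x
  rw [h2] at h1
  exact h1

theorem charpoly_fixed (r : R) (i : ℕ) :
    μ ((h.mat r).charpoly.coeff i) = AdjoinRoot.of P ((h.mat r).charpoly.coeff i) := by
  rcases subsingleton_or_nontrivial (AdjoinRoot P) with hs | hn
  · exact Subsingleton.elim _ _
  have hP2 : (P2 P).Monic := h.monic.map _
  have hdeg : (P2 P).natDegree = P.natDegree := h.monic.natDegree_map _
  have hfr : Module.Free (AdjoinRoot P) (AdjoinRoot (P2 P)) := hP2.free_adjoinRoot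
  have hfi : Module.Finite (AdjoinRoot P) (AdjoinRoot (P2 P)) := hP2.finite_adjoinRoot
  -- the basis indexed by `Fin P.natDegree`
  set b : Module.Basis (Fin P.natDegree) (AdjoinRoot P) (AdjoinRoot (P2 P)) :=
    (bas hP2).reindex (finCongr hdeg) with hb
  have hbap : ∀ j : Fin P.natDegree, b j = root (P2 P) ^ (j : ℕ) := by
    intro j
    rw [hb, Module.Basis.reindex_apply, bas_apply]
    rfl
  have hbr : ∀ (c : Fin P.natDegree → AdjoinRoot P) (m : Fin P.natDegree),
      b.repr (∑ j, of (P2 P) (c j) * root (P2 P) ^ (j : ℕ)) m = c m := by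
    intro c m
    have h1 : (∑ j, of (P2 P) (c j) * root (P2 P) ^ (j : ℕ)) = ∑ j, c j • b j := by
      refine Finset.sum_congr rfl fun j _ => ?_
      rw [hbap, Algebra.smul_def]
      rfl
    rw [h1, Module.Basis.repr_sum_self]
  -- the two matrices
  have hM1 : (h.mat r).map μ
      = LinearMap.toMatrix b b (Algebra.lmul (AdjoinRoot P) (AdjoinRoot (P2 P)) (h.m1 (μ r))) := by
    ext m j
    rw [LinearMap.toMatrix_apply, lmul_app, hbap]
    have h1 : h.m1 (μ r) * root (P2 P) ^ (j : ℕ) = h.m1 (μ r * root P ^ (j : ℕ)) := by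
      rw [map_mul, map_pow, h.m1_root]
    rw [h1]
    conv_rhs => rw [eq_sum_fin h.monic (μ r * root P ^ (j : ℕ)), map_sum]
    have h2 : ∑ x : Fin P.natDegree, h.m1 (of P (cf h.monic x (μ r * root P ^ (j : ℕ))) * root P ^ (x : ℕ))
        = ∑ x : Fin P.natDegree, of (P2 P) (μ (cf h.monic x (μ r * root P ^ (j : ℕ))))
          * root (P2 P) ^ (x : ℕ) := by
      refine Finset.sum_congr rfl fun x _ => ?_
      rw [map_mul, map_pow, h.m1_of, h.m1_root]
    rw [h2, hbr]
    rfl
  have hM2 : (h.mat r).map (of P)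
      = LinearMap.toMatrix b b (Algebra.lmul (AdjoinRoot P) (AdjoinRoot (P2 P)) (h.ι (μ r))) := by
    ext m j
    rw [LinearMap.toMatrix_apply, lmul_app, hbap]
    have h1 : h.ι (μ r) * root (P2 P) ^ (j : ℕ) = h.ι (μ r * root P ^ (j : ℕ)) := by
      rw [map_mul, map_pow, h.ι_root]
    rw [h1]
    conv_rhs => rw [eq_sum_fin h.monic (μ r * root P ^ (j : ℕ)), map_sum]
    have h2 : ∑ x : Fin P.natDegree, h.ι (of P (cf h.monic x (μ r * root P ^ (j : ℕ))) * root P ^ (x : ℕ))
        = ∑ x : Fin P.natDegree, of (P2 P) (of P (cf h.monic x (μ r * root P ^ (j : ℕ))))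
          * root (P2 P) ^ (x : ℕ) := by
      refine Finset.sum_congr rfl fun x _ => ?_
      rw [map_mul, map_pow, h.ι_of, h.ι_root]
    rw [h2, hbr]
    rfl
  -- the translation as a linear equivalence
  let e : AdjoinRoot (P2 P) ≃ₗ[AdjoinRoot P] AdjoinRoot (P2 P) :=
    { toFun := h.θ
      invFun := h.θ'
      map_add' := map_add _
      map_smul' := fun c x => by
        rw [Algebra.smul_def, Algebra.smul_def, map_mul]
        congr 1
        exact h.θ_of c
      left_inv := h.θ'_θ
      right_inv := h.θ_θ' }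
  have hconj : Algebra.lmul (AdjoinRoot P) (AdjoinRoot (P2 P)) (h.m1 (μ r))
      = e.conj (Algebra.lmul (AdjoinRoot P) (AdjoinRoot (P2 P)) (h.ι (μ r))) := by
    ext x
    rw [LinearEquiv.conj_apply_apply, lmul_app, lmul_app]
    change h.m1 (μ r) * x = h.θ (h.ι (μ r) * h.θ' x)
    rw [map_mul, h.θ_θ', ← h.Δ_eq, h.coassoc']
  have hchar : ((h.mat r).charpoly.map μ) = ((h.mat r).charpoly.map (of P)) := by
    rw [← Matrix.charpoly_map, ← Matrix.charpoly_map, hM1, hM2, LinearMap.charpoly_toMatrix,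
      LinearMap.charpoly_toMatrix, hconj, LinearEquiv.charpoly_conj]
  have := congrArg (fun Q => Q.coeff i) hchar
  simpa only [coeff_map] using this

theorem det_fixed (r : R) : μ (h.mat r).det = AdjoinRoot.of P (h.mat r).det := by
  rw [Matrix.det_eq_sign_charpoly_coeff, map_mul, map_mul, h.charpoly_fixed, map_pow, map_pow,
    map_neg, map_neg, map_one, map_one]

theorem dvd_det (r : R) : r ∣ (h.mat r).det := by
  have h1 : r - 0 ∣ (h.mat r).charpoly.eval r - (h.mat r).charpoly.eval 0 := sub_dvd_eval_sub _ _ _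
  rw [h.charpoly_eval, sub_zero, zero_sub, dvd_neg] at h1
  rw [Matrix.det_eq_sign_charpoly_coeff, coeff_zero_eq_eval_zero]
  exact Dvd.dvd.mul_left h1 _

end Coact

end Pool.Agent.MP_b525bf_ag.Gam
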