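import Pool.Agent.Lib.MP_b525bf_ag_h40.Gam

/-!
Restriction of a coaction of `{P = 0}` to a stable subring, and the point lemma.
-/

set_option autoImplicit false

namespace Pool.Agent.MP_b525bf_ag.Gam

open Polynomial AdjoinRoot

namespace G2

section Map

variable {R S : Type} [CommRing R] [CommRing S] {P : R[X]} {Q : S[X]}

/-- base change of `R[X]/(P)` along `φ` -/
noncomputable def mp (φ : R →+* S) (hPQ : P.map φ = Q) : AdjoinRoot P →+* AdjoinRoot Q :=
  lift ((of Q).comp φ) (root Q) (by rw [← eval₂_map, hPQ, eval₂_root])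

variable (φ : R →+* S) (hPQ : P.map φ = Q)

lemma mp_of (r : R) : mp φ hPQ (of P r) = of Q (φ r) := lift_of _
lemma mp_root : mp φ hPQ (root P) = root Q := lift_root _

lemma mp_mk (f : R[X]) : mp φ hPQ (mk P f) = mk Q (f.map φ) := by
  rw [mp, lift_mk, ← eval₂_map]
  exact aeval_eq _

lemma cf_mp (hP : P.Monic) (hQ : Q.Monic) (m : ℕ) (z : AdjoinRoot P) :
    cf hQ m (mp φ hPQ z) = φ (cf hP m z) := by
  obtain ⟨f, rfl⟩ := mk_surjective z
  rw [mp_mk]
  change (modByMonicHom hQ _).coeff m = φ ((modByMonicHom hP _).coeff m)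
  rw [modByMonicHom_mk, modByMonicHom_mk]
  subst hPQ
  rw [← map_modByMonic φ hP, coeff_map]

lemma cf_ext' (hP : P.Monic) {z z' : AdjoinRoot P} (H : ∀ m, cf hP m z = cf hP m z') : z = z' := by
  rw [eq_sum_range hP z, eq_sum_range hP z']
  refine Finset.sum_congr rfl fun i _ => ?_
  rw [H i]

lemma mp_injective (hP : P.Monic) (hQ : Q.Monic) (hφ : Function.Injective φ) :
    Function.Injective (mp φ hPQ) := by
  intro z z' hz
  refine cf_ext' hP fun m => hφ ?_
  rw [← cf_mp φ hPQ hP hQ, ← cf_mp φ hPQ hP hQ, hz]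

lemma exists_of_cf' (hQ : Q.Monic) (hdeg : P.natDegree = Q.natDegree) (g : AdjoinRoot Q)
    (hg : ∀ m, ∃ r, φ r = cf hQ m g) : ∃ z, mp φ hPQ z = g := by
  choose r hr using hg
  refine ⟨∑ i ∈ Finset.range P.natDegree, of P (r i) * root P ^ i, ?_⟩
  conv_rhs => rw [eq_sum_range hQ g]
  rw [map_sum, hdeg]
  refine Finset.sum_congr rfl fun i _ => ?_
  rw [map_mul, map_pow, mp_of, mp_root, hr]

end Map

section Coeff

variable {R : Type} [CommRing R] {P : R[X]} (hP : P.Monic)

lemma cf_of_mul' (m : ℕ) (r : R) (z : AdjoinRoot P) : cf hP m (of P r * z) = r * cf hP m z := by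
  have : of P r * z = r • z := by rw [Algebra.smul_def]; rfl
  rw [this, map_smul, smul_eq_mul]

lemma cf_root_pow' {l : ℕ} (hl : l < P.natDegree) (m : ℕ) :
    cf hP m (root P ^ l) = if m = l then 1 else 0 := by
  nontriviality R
  have h1 : root P ^ l = mk P (X ^ l) := by rw [map_pow, mk_X]
  rw [h1]
  change (modByMonicHom hP _).coeff m = _
  rw [modByMonicHom_mk, (modByMonic_eq_self_iff hP).2, coeff_X_pow]
  rw [degree_X_pow, degree_eq_natDegree hP.ne_zero]
  exact_mod_cast hl

/-- coordinates of `(a + b X)^i` for `i < deg P` -/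
lemma cf_binom (a b : R) {i : ℕ} (hi : i < P.natDegree) (m : ℕ) :
    cf hP m ((of P a + of P b * root P) ^ i) = if m ≤ i then b ^ m * a ^ (i - m) * (i.choose m) else 0 := by
  rw [add_comm, add_pow, map_sum]
  have h1 : ∀ l ∈ Finset.range (i + 1), cf hP m ((of P b * root P) ^ l * of P a ^ (i - l) * ((i.choose l : ℕ) : AdjoinRoot P))
      = if m = l then b ^ l * a ^ (i - l) * (i.choose l) else 0 := by
    intro l hl
    have hl' : l < P.natDegree := lt_of_le_of_lt (Nat.lt_succ_iff.1 (Finset.mem_range.1 hl)) hi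
    have h2 : (of P b * root P) ^ l * of P a ^ (i - l) * ((i.choose l : ℕ) : AdjoinRoot P)
        = of P (b ^ l * a ^ (i - l) * (i.choose l)) * root P ^ l := by
      rw [map_mul, map_mul, map_pow, map_pow, map_natCast, mul_pow]
      ring
    rw [h2, cf_of_mul', cf_root_pow' hP hl', mul_ite, mul_one, mul_zero]
  rw [Finset.sum_congr rfl h1, Finset.sum_ite_eq]
  simp only [Finset.mem_range, Nat.lt_succ_iff]

end Coeff

end G2

open G2

/-- T1: restriction of a coaction to a stable subring -/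
theorem Coact.restrict {R L : Type} [CommRing R] [CommRing L] (ι : R →+* L)
    (hι : Function.Injective ι) {P : R[X]} {Q : L[X]} (hPQ : P.map ι = Q) (hP : P.Monic)
    {μL : L →+* AdjoinRoot Q} (hL : Coact Q μL)
    (hadd : ∀ {C : Type} [CommRing C] (φ : R →+* C) (a b : C),
      P.eval₂ φ (a + b) = P.eval₂ φ a + P.eval₂ φ b)
    (hst : ∀ r m, ∃ r1, ι r1 = cf hL.monic m (μL (ι r))) :
    ∃ μR : R →+* AdjoinRoot P, Coact P μR ∧
      ∀ (h : Coact P μR) r m, ι (cf h.monic m (μR r)) = cf hL.monic m (μL (ι r)) := by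
  have hdeg : P.natDegree = Q.natDegree := by
    subst hPQ
    rw [natDegree_map_eq_of_injective hι]
  have hJ := mp_injective ι hPQ hP hL.monic hι
  have hex : ∀ r, ∃ z, mp ι hPQ z = μL (ι r) := fun r =>
    exists_of_cf' ι hPQ hL.monic hdeg _ (hst r)
  choose f hf using hex
  let μR : R →+* AdjoinRoot P :=
    { toFun := f
      map_one' := hJ (by rw [hf, map_one, map_one, map_one])
      map_mul' := fun a b => hJ (by rw [hf, map_mul, map_mul, map_mul, hf, hf])
      map_zero' := hJ (by rw [hf, map_zero, map_zero, map_zero])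
      map_add' := fun a b => hJ (by rw [hf, map_add, map_add, map_add, hf, hf]) }
  have hμ : ∀ r, mp ι hPQ (μR r) = μL (ι r) := hf
  have hcf : ∀ r m, ι (cf hP m (μR r)) = cf hL.monic m (μL (ι r)) := by
    intro r m
    rw [← cf_mp ι hPQ hP hL.monic, hμ]
  have hP2Q : (P2 P).map (mp ι hPQ) = P2 Q := by
    ext i
    rw [coeff_map, coeff_map, coeff_map, mp_of, ← hPQ, coeff_map]
  have hJ2 := mp_injective (mp ι hPQ) hP2Q (hP.map _) (hL.monic.map _) hJ
  refine ⟨μR, ⟨hP, hadd, ?_, ?_, ?_⟩, fun h r m => hcf r m⟩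
  · intro i
    apply hJ
    have h1 : ι (P.coeff i) = Q.coeff i := by rw [← hPQ, coeff_map]
    rw [hμ, mp_of, h1, hL.fixed]
  · intro r
    apply hι
    rw [hcf, hL.counit]
  · intro r
    apply hJ2
    have h1 := hL.coassoc (ι r)
    rw [map_sum, map_sum]
    rw [← hdeg] at h1
    calc ∑ i ∈ Finset.range P.natDegree, mp (mp ι hPQ) hP2Q
            (of (P2 P) (μR (cf hP i (μR r))) * root (P2 P) ^ i)
        = ∑ i ∈ Finset.range P.natDegree, of (P2 Q) (μL (cf hL.monic i (μL (ι r))))
            * root (P2 Q) ^ i := by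
          refine Finset.sum_congr rfl fun i _ => ?_
          rw [map_mul, map_pow, mp_of, mp_root, hμ, hcf]
      _ = _ := h1
      _ = _ := by
          refine Finset.sum_congr rfl fun i _ => ?_
          rw [map_mul, map_pow, map_add, mp_of, mp_of, mp_of, mp_root, mp_root, hcf]

/-- T2: the point lemma -/
theorem Coact.point_lemma {R : Type} [CommRing R] {P : R[X]} {μ : R →+* AdjoinRoot P}
    (h : Coact P μ) (Q : Ideal R) [Q.IsPrime] (y : R) (hq : 1 < P.natDegree)
    (hx : cf h.monic 1 (μ y) ∉ Q)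
    (hx1 : ∀ l, 1 ≤ l → cf h.monic l (μ (cf h.monic 1 (μ y))) ∈ Q)
    (hy : ∀ m, 2 ≤ m → ∀ l, cf h.monic l (μ (cf h.monic m (μ y))) ∈ Q) :
    (h.mat (Matrix.of fun m i : Fin P.natDegree => cf h.monic m (μ y ^ (i : ℕ))).det).det ∉ Q := by
  set δ : R := (Matrix.of fun m i : Fin P.natDegree => cf h.monic m (μ y ^ (i : ℕ))).det with hδ
  set k : R →+* R ⧸ Q := Ideal.Quotient.mk Q with hk
  set PQ : (R ⧸ Q)[X] := P.map k with hPQ
  have hPQm : PQ.Monic := h.monic.map k
  have hdeg : PQ.natDegree = P.natDegree := h.monic.natDegree_map k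
  set J : AdjoinRoot P →+* AdjoinRoot PQ := mp k hPQ.symm with hJ
  have hJcf : ∀ m z, cf hPQm m (J z) = k (cf h.monic m z) := fun m z =>
    cf_mp k hPQ.symm h.monic hPQm m z
  set θ : R →+* AdjoinRoot PQ := J.comp μ with hθ
  have hθa : ∀ r, θ r = J (μ r) := fun r => rfl
  -- `cf m (μ y) ∈ Q` for `m ≥ 2`
  have hy0 : ∀ m, 2 ≤ m → cf h.monic m (μ y) ∈ Q := by
    intro m hm
    have := hy m hm 0
    rwa [h.counit] at this
  set x : R := cf h.monic 1 (μ y) with hxdef
  have hθ2 : ∀ m, 2 ≤ m → θ (cf h.monic m (μ y)) = 0 := by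
    intro m hm
    refine cf_ext' hPQm fun l => ?_
    rw [hθa, hJcf, map_zero]
    exact Ideal.Quotient.eq_zero_iff_mem.2 (hy m hm l)
  have hθx : θ x = of PQ (k x) := by
    refine cf_ext' hPQm fun l => ?_
    rw [hθa, hJcf]
    have h1 : of PQ (k x) = of PQ (k x) * root PQ ^ 0 := by rw [pow_zero, mul_one]
    rw [h1, cf_of_mul', cf_root_pow' hPQm (by omega)]
    rcases Nat.eq_zero_or_pos l with hl | hl
    · rw [hl, if_pos rfl, mul_one, h.counit]
    · rw [if_neg (by omega), mul_zero]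
      exact Ideal.Quotient.eq_zero_iff_mem.2 (hx1 l hl)
  have hP2 : P.map θ = P2 PQ := by
    ext i
    rw [coeff_map, coeff_map, hθa, h.fixed, hJ, mp_of, hPQ, coeff_map]
  have hP2m : (P2 PQ).Monic := hPQm.map _
  have hdeg2 : (P2 PQ).natDegree = P.natDegree := by
    rcases subsingleton_or_nontrivial (AdjoinRoot PQ) with hs | hs
    · exfalso
      have h1 : (1 : AdjoinRoot PQ) = 0 := Subsingleton.elim _ _
      have h2 := congrArg (cf hPQm 0) h1
      have h3 : (1 : AdjoinRoot PQ) = root PQ ^ 0 := (pow_zero _).symm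
      rw [h3, cf_root_pow' hPQm (by omega), if_pos rfl, map_zero] at h2
      exact one_ne_zero h2
    · rw [hPQm.natDegree_map, hdeg]
  set Θ : AdjoinRoot P →+* AdjoinRoot (P2 PQ) := mp θ hP2 with hΘ
  have hΘcf : ∀ m z, cf hP2m m (Θ z) = θ (cf h.monic m z) := fun m z =>
    cf_mp θ hP2 h.monic hP2m m z
  have hΘy : Θ (μ y) = of (P2 PQ) (θ y) + of (P2 PQ) (θ x) * root (P2 PQ) := by
    conv_lhs => rw [eq_sum_range h.monic (μ y)]
    rw [map_sum]
    have h1 : ∀ m ∈ Finset.range P.natDegree, Θ (of P (cf h.monic m (μ y)) * root P ^ m)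
        = if m = 0 then of (P2 PQ) (θ y) else if m = 1 then of (P2 PQ) (θ x) * root (P2 PQ) else 0 := by
      intro m _
      rw [map_mul, map_pow, hΘ, mp_of, mp_root]
      rcases Nat.eq_zero_or_pos m with hm | hm
      · rw [if_pos hm, hm, pow_zero, mul_one, h.counit]
      · rw [if_neg (by omega)]
        rcases Nat.eq_or_lt_of_le hm with hm | hm
        · rw [if_pos hm.symm, ← hm, pow_one]
        · rw [if_neg (by omega), hθ2 m hm, map_zero, zero_mul]
    rw [Finset.sum_congr rfl h1]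
    rw [← Finset.sum_subset (Finset.range_subset_range.2 (show 2 ≤ P.natDegree by omega))]
    · rw [Finset.sum_range_succ, Finset.sum_range_one, if_pos rfl, if_neg (by omega), if_pos rfl]
    · intro m _ hm
      rw [Finset.mem_range, not_lt] at hm
      rw [if_neg (by omega), if_neg (by omega)]
  -- the determinant
  have hθδ : θ δ = of PQ (k x ^ (∑ m : Fin P.natDegree, (m : ℕ))) := by
    rw [hδ, RingHom.map_det]
    have h1 : θ.mapMatrix (Matrix.of fun m i : Fin P.natDegree => cf h.monic m (μ y ^ (i : ℕ)))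
        = Matrix.of fun m i : Fin P.natDegree => if (m : ℕ) ≤ i then
            θ x ^ (m : ℕ) * θ y ^ ((i : ℕ) - m) * (((i : ℕ).choose m : ℕ) : AdjoinRoot PQ) else 0 := by
      ext m i
      rw [RingHom.mapMatrix_apply, Matrix.map_apply, Matrix.of_apply, Matrix.of_apply, ← hΘcf,
        map_pow, hΘy, cf_binom hP2m _ _ (by rw [hdeg2]; exact i.2)]
    rw [h1, Matrix.det_of_isUpperTriangular]
    · rw [map_pow, ← hθx, ← Finset.prod_pow_eq_pow_sum]
      refine Finset.prod_congr rfl fun m _ => ?_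
      rw [Matrix.of_apply, if_pos le_rfl, Nat.sub_self, pow_zero, mul_one, Nat.choose_self,
        Nat.cast_one, mul_one]
    · intro m i hmi
      rw [Matrix.of_apply, if_neg]
      intro hle
      exact absurd hmi (not_lt.2 hle)
  have hmat : k (h.mat δ).det = (k x ^ (∑ m : Fin P.natDegree, (m : ℕ))) ^ P.natDegree := by
    rw [RingHom.map_det]
    have h1 : k.mapMatrix (h.mat δ)
        = Matrix.diagonal fun _ : Fin P.natDegree => k x ^ (∑ m : Fin P.natDegree, (m : ℕ)) := by
      ext m j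
      rw [RingHom.mapMatrix_apply, Matrix.map_apply, Coact.mat, Matrix.of_apply, ← hJcf, map_mul,
        map_pow, ← hθa, hθδ, cf_of_mul', hJ, mp_root, cf_root_pow' hPQm (by rw [hdeg]; exact j.2),
        Matrix.diagonal_apply]
      by_cases hmj : m = j
      · rw [if_pos hmj, if_pos (by rw [hmj]), mul_one]
      · rw [if_neg hmj, if_neg (fun hc => hmj (Fin.ext hc)), mul_zero]
    rw [h1, Matrix.det_diagonal, Finset.prod_const, Finset.card_univ, Fintype.card_fin]
  intro hmem
  have h2 : k (h.mat δ).det = 0 := Ideal.Quotient.eq_zero_iff_mem.2 hmem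
  rw [hmat] at h2
  have h3 : k x = 0 := by
    by_contra hne
    exact pow_ne_zero _ (pow_ne_zero _ hne) h2
  exact hx (Ideal.Quotient.eq_zero_iff_mem.1 h3)

end Pool.Agent.MP_b525bf_ag.Gam
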